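import Pool.Agent.TH93.BccB

/-!
The Cayley graph of the square system has no convex embedding into a finitely generated
right-angled Artin group.
-/

set_option autoImplicit false

namespace Pool.Agent.TH93.Bcc

open Pool.Agent.W387 Pool.Agent.W387.SqSys

/-- the neighbour of a vertex along a dart -/
noncomputable def nb (v : SS.Vx) (l : Lt) : SS.Vx := ⟨SS.gn l * v.g⟩

theorem adj_nb (v : SS.Vx) (l : Lt) : SS.Cay.Adj v (nb v l) := ⟨l, rfl⟩

theorem gn_injective {a b : Lt} (h : SS.gn a = SS.gn b) : a = b := by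
  apply E_single (S := SS)
  apply E_of_evL_eq (red_single a) (red_single b)
  simpa using h

theorem nb_ne {v : SS.Vx} {p q : Lt} (h : p ≠ q) : nb v p ≠ nb v q := by
  intro e
  have e2 := congrArg Vx.g e
  exact h (gn_injective (mul_right_cancel e2))

theorem nb_nb {a b p q : Lt} (h : SS.sq a b = some (p, q)) (v : SS.Vx) :
    nb (nb v p) a = nb (nb v q) b := by
  apply Vx.ext
  show SS.gn a * (SS.gn p * v.g) = SS.gn b * (SS.gn q * v.g)
  rw [← mul_assoc, gn_sq h, mul_assoc]

theorem sq_ne {a b p q : Lt} (h : SS.sq a b = some (p, q)) : p ≠ q := by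
  rintro rfl
  have := SqSys.backs h
  rw [SS.irrefl] at this
  cases this

theorem ne_nb_nb {a b p q : Lt} (h : SS.sq a b = some (p, q)) (v : SS.Vx) :
    v ≠ nb (nb v p) a := by
  intro e
  have e2 : v.g = SS.gn a * (SS.gn p * v.g) := congrArg Vx.g e
  rw [← mul_assoc] at e2
  have e3 : SS.gn a * SS.gn p = 1 := by
    have : (1 : SS.Grp) * v.g = SS.gn a * SS.gn p * v.g := by rw [one_mul]; exact e2
    exact (mul_right_cancel this).symm
  have e4 : SS.gn p = SS.gn (SS.inv a) := by
    rw [gn_inv]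
    exact eq_inv_of_mul_eq_one_right e3
  have e5 := gn_injective e4
  have := SS.rot h
  rw [← e5, SS.irrefl] at this
  cases this

/-- end point of a vertical path -/
noncomputable def en : List Vt → SS.Vx → SS.Vx
  | [], v => v
  | s :: u, v => en u (nb v s.i)

theorem en_append (u w : List Vt) (v : SS.Vx) : en (u ++ w) v = en w (en u v) := by
  induction u generalizing v with
  | nil => rfl
  | cons s u ih => simp [en, ih]

theorem en_sec (u : List Vt) (h : Bool) (v : SS.Vx) :
    en (sec u h) (nb v (hz h)) = nb (en u v) (hz (out u h)) := by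
  induction u generalizing h v with
  | nil => rfl
  | cons s u ih =>
    show en (sec u (tau s h)) (nb (nb v (hz h)) (del s h).i) = nb (en u (nb v s.i)) (hz (out u (tau s h)))
    rw [← nb_nb (sq_auto s h) v, ih]

section

variable {n : ℕ} {Γ : SimpleGraph (Fin n)} {C : SimpleGraph (PresentedGroup (RR Γ))}

theorem C_adj_gu (hC : ∀ g h : PresentedGroup (RR Γ), C.Adj g h ↔
      (g ≠ h ∧ ∃ i : Fin n, h = g * PresentedGroup.of i ∨ g = h * PresentedGroup.of i))
    (g : PresentedGroup (RR Γ)) (p : Fin n × Bool) : C.Adj g (g * gu Γ p) := by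
  rw [hC]
  refine ⟨?_, p.1, ?_⟩
  · intro h
    have h1 : gu Γ p = 1 := by
      have : g * 1 = g * gu Γ p := by rw [mul_one]; exact h
      exact (mul_left_cancel this).symm
    have h2 := ab_gu Γ p
    rw [h1] at h2
    apply wv_ne_zero p
    rw [← h2]
    unfold ab
    rw [map_one]
    rfl
  · obtain ⟨i, e⟩ := p
    cases e
    · right
      simp [gu]
    · left
      simp [gu]

theorem exists_gu (hC : ∀ g h : PresentedGroup (RR Γ), C.Adj g h ↔
      (g ≠ h ∧ ∃ i : Fin n, h = g * PresentedGroup.of i ∨ g = h * PresentedGroup.of i))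
    {g h : PresentedGroup (RR Γ)} (hgh : C.Adj g h) : ∃ p, h = g * gu Γ p := by
  rw [hC] at hgh
  obtain ⟨_, i, hi | hi⟩ := hgh
  · exact ⟨(i, true), by simpa [gu] using hi⟩
  · refine ⟨(i, false), ?_⟩
    rw [hi]
    simp [gu]

theorem dist_two (hC : ∀ g h : PresentedGroup (RR Γ), C.Adj g h ↔
      (g ≠ h ∧ ∃ i : Fin n, h = g * PresentedGroup.of i ∨ g = h * PresentedGroup.of i))
    {g : PresentedGroup (RR Γ)} {p q : Fin n × Bool} (hpq : Γ.Adj p.1 q.1) :
    C.Adj (g * gu Γ p) (g * gu Γ p * gu Γ q) ∧ C.Adj (g * gu Γ p * gu Γ q) (g * gu Γ q) ∧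
      C.dist (g * gu Γ p) (g * gu Γ q) = 2 := by
  have hc : gu Γ p * gu Γ q = gu Γ q * gu Γ p := gu_commute Γ hpq p.2 q.2
  have a1 := C_adj_gu hC (g * gu Γ p) q
  have a2 : C.Adj (g * gu Γ p * gu Γ q) (g * gu Γ q) := by
    rw [mul_assoc, hc, ← mul_assoc]
    exact (C_adj_gu hC (g * gu Γ q) p).symm
  refine ⟨a1, a2, ?_⟩
  have hne : p.1 ≠ q.1 := hpq.ne
  have hle : C.dist (g * gu Γ p) (g * gu Γ q) ≤ 2 :=
    SimpleGraph.dist_le (SimpleGraph.Walk.cons a1 (SimpleGraph.Walk.cons a2 SimpleGraph.Walk.nil))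
  have hr : C.Reachable (g * gu Γ p) (g * gu Γ q) :=
    ⟨SimpleGraph.Walk.cons a1 (SimpleGraph.Walk.cons a2 SimpleGraph.Walk.nil)⟩
  have h0 : C.dist (g * gu Γ p) (g * gu Γ q) ≠ 0 := by
    intro h
    rw [hr.dist_eq_zero_iff] at h
    have h2 := congrArg (ab Γ) (mul_left_cancel h)
    rw [ab_gu, ab_gu] at h2
    exact hne (by rw [wv_inj h2])
  have h1 : C.dist (g * gu Γ p) (g * gu Γ q) ≠ 1 := by
    intro h
    rw [SimpleGraph.dist_eq_one_iff_adj] at h
    obtain ⟨k, hk⟩ := exists_gu hC h
    rw [mul_assoc] at hk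
    have h2 := congrArg (ab Γ) (mul_left_cancel hk)
    rw [ab_mul, ab_gu, ab_gu, ab_gu] at h2
    have h3 := congrArg (fun v => ip v p) h2
    have h4 := congrArg (fun v => ip v q) h2
    simp only [ip_add, ip_self] at h3 h4
    have h5 : ip (wv p) q = 0 := by
      rw [ip_wv]
      simp [hne]
    have h6 : ip (wv q) p = 0 := by
      rw [ip_wv]
      simp [hne.symm]
    have h7 : k = q := ip_eq_one (by omega)
    subst h7
    omega
  omega

theorem no_embed (hC : ∀ g h : PresentedGroup (RR Γ), C.Adj g h ↔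
      (g ≠ h ∧ ∃ i : Fin n, h = g * PresentedGroup.of i ∨ g = h * PresentedGroup.of i))
    (f : SS.Cay ↪g C)
    (hf : ∀ a b c : PresentedGroup (RR Γ), a ∈ Set.range f → b ∈ Set.range f →
            C.dist a c + C.dist c b = C.dist a b → c ∈ Set.range f) : False := by
  have hex : ∀ (v : SS.Vx) (l : Lt), ∃ p, f (nb v l) = f v * gu Γ p := by
    intro v l
    exact exists_gu hC (f.map_adj_iff.mpr (adj_nb v l))
  choose d hd using hex
  -- squares
  have hsq : ∀ {a b p q : Lt} (_ : SS.sq a b = some (p, q)) (v : SS.Vx),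
      d v p = d (nb v q) b ∧ d (nb v p) a = d v q ∧ Γ.Adj (d v p).1 (d v q).1 := by
    intro a b p q h v
    have k1 := hd v p
    have k2 := hd (nb v p) a
    have k3 := hd v q
    have k4 := hd (nb v q) b
    rw [← nb_nb h v] at k4
    obtain ⟨e1, e2, e3⟩ := raag_square Γ k1 k2 k3 k4
      (fun e => nb_ne (sq_ne h) (f.injective e)) (fun e => ne_nb_nb h v (f.injective e))
    refine ⟨e1, e2, ?_⟩
    rw [← e2]
    exact e3
  -- corners
  have hcor : ∀ (p q : Lt) (v : SS.Vx), Γ.Adj (d v p).1 (d v q).1 → ∃ a b, SS.sq a b = some (p, q) := by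
    intro p q v h
    obtain ⟨a1, a2, a3⟩ := dist_two hC (g := f v) h
    have hc : f v * gu Γ (d v p) * gu Γ (d v q) ∈ Set.range f := by
      apply hf (f (nb v p)) (f (nb v q)) _ ⟨_, rfl⟩ ⟨_, rfl⟩
      rw [hd v p, hd v q, a3, SimpleGraph.dist_eq_one_iff_adj.mpr a1,
        SimpleGraph.dist_eq_one_iff_adj.mpr a2]
    obtain ⟨w, hw⟩ := hc
    rw [← hw, ← hd v p] at a1
    rw [← hw, ← hd v q] at a2
    have b1 : SS.Cay.Adj (nb v p) w := f.map_adj_iff.mp a1
    have b2 : SS.Cay.Adj (nb v q) w := (f.map_adj_iff.mp a2).symm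
    obtain ⟨a, ha⟩ := b1
    obtain ⟨b, hb⟩ := b2
    refine ⟨a, b, sq_of_square (v := v.g) (w := w.g) ha hb ?_ ?_⟩
    · intro e
      have e1 : nb v p = nb v q := Vx.ext e
      have e2 := hd v p
      rw [e1, hd v q] at e2
      have e3 := congrArg (ab Γ) (mul_left_cancel e2)
      rw [ab_gu, ab_gu] at e3
      rw [wv_inj e3] at h
      exact h.ne rfl
    · intro e
      have e1 : v = w := Vx.ext e
      subst e1
      have e2 : gu Γ (d v p) * gu Γ (d v q) = 1 := by
        have : f v * (gu Γ (d v p) * gu Γ (d v q)) = f v * 1 := by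
          rw [← mul_assoc, ← hw, mul_one]
        exact mul_left_cancel this
      have e3 := congrArg (ab Γ) e2
      rw [ab_mul, ab_gu, ab_gu] at e3
      have e4 : ab Γ 1 = 0 := by
        unfold ab
        rw [map_one]
        rfl
      rw [e4] at e3
      have e5 := congrArg (fun v' => ip v' (d v p)) e3
      simp only [ip_add, ip_self, ip_zero] at e5
      have e6 : ip (wv (d v q)) (d v p) = 0 := by
        rw [ip_wv]
        simp [h.ne.symm]
      omega
  -- transport of horizontal labels along vertical paths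
  have htr : ∀ (u : List Vt) (h : Bool) (v : SS.Vx), d v (hz h) = d (en u v) (hz (out u h)) := by
    intro u
    induction u with
    | nil => intro h v; rfl
    | cons s u ih =>
      intro h v
      show d v (hz h) = d (en u (nb v s.i)) (hz (out u (tau s h)))
      rw [← ih, (hsq (sq_auto s h) v).2.1]
  -- the squares on the extra loop
  have st : SS.sq .t .x = some (.x, .t) := rfl
  have hgood : ∀ u : List Vt, Good u → ∀ v : SS.Vx, d v .t = d (en u v) .t → False := by
    intro u hu
    induction hu with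
    | now h =>
      rename_i u
      intro v hv
      have h1 := (hsq st v).2.2
      have h2 := htr u false v
      rw [h] at h2
      have h3 : d v .x = d (en u v) .y := h2
      rw [h3, hv] at h1
      obtain ⟨a, b, hab⟩ := hcor _ _ _ h1
      revert hab
      revert a b
      decide
    | later h h' ih =>
      rename_i u
      intro v hv
      apply ih (nb v .x)
      have h1 := (hsq st v).2.1
      have h2 := (hsq st (en u v)).2.1
      have h3 := en_sec u false v
      rw [h] at h3
      have h4 : en (sec u false) (nb v .x) = nb (en u v) .x := h3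
      rw [h4, h1, h2, hv]
  -- pigeonhole
  let g : List Vt := [.a, .b]
  let z : ℕ → Fin n × Bool := fun k => d (en (pw g k) ⟨1⟩) .t
  obtain ⟨j, k, hjk, he⟩ := Finite.exists_ne_map_eq_of_infinite z
  have main : ∀ j k : ℕ, j < k → z j = z k → False := by
    intro j k hlt he
    obtain ⟨e, rfl⟩ := Nat.exists_eq_add_of_lt hlt
    have h1 : pw g (j + e + 1) = pw g j ++ pw g (e + 1) := by
      rw [← pw_add]
      rfl
    apply hgood _ (good_pw (e + 1) g (by omega) rfl rfl) (en (pw g j) ⟨1⟩)
    rw [← en_append, ← h1]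
    exact he
  rcases lt_or_gt_of_ne hjk with h | h
  · exact main j k h he
  · exact main k j h he.symm

end

end Pool.Agent.TH93.Bcc
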