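import Pool.Agent.W387.SqMedian

/-!
Right-angled Artin labellings of the Cayley graph of a square system, and the square system made of
an irreducible lattice in a product of two trees with a torus glued along a horizontal loop.
-/

set_option autoImplicit false

namespace Pool.Agent.TH93.Bcc

open Pool.Agent.W387 Pool.Agent.W387.SqSys

/-! ### a general fact about squares of the Cayley graph -/

theorem sq_of_square {A : Type} {S : SqSys A} {v w : S.Grp} {a b p q : A}
    (h1 : w = S.gn a * (S.gn p * v)) (h2 : w = S.gn b * (S.gn q * v))
    (hne : S.gn p * v ≠ S.gn q * v) (hvw : v ≠ w) : S.sq a b = some (p, q) := by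
  have ua : dd v (S.gn p * v) = 1 := by
    unfold dd
    rw [mul_inv_cancel_right, len_gn]
  have huv' : dd v w ≠ 0 := by
    intro h
    have := len_eq_zero h
    rw [mul_inv_eq_one] at this
    exact hvw this.symm
  have hd : dd v w = 2 := by
    have h5 := dd_gn_mul v (S.gn p * v) a
    rw [← h1, ua] at h5
    omega
  have red2 : ∀ a a' : A, w = S.gn a' * (S.gn a * v) → S.Red [a', a] := by
    intro a a' h
    apply red_of_len
    have e : evL (S := S) [a', a] = w * v⁻¹ := by
      rw [h]
      simp [mul_assoc]
    rw [e]
    exact hd
  have hE : S.E [a, p] [b, q] := by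
    apply E_of_evL_eq (red2 _ _ h1) (red2 _ _ h2)
    simp only [evL_cons, evL_nil, mul_one]
    have := h1.symm.trans h2
    rw [← mul_assoc, ← mul_assoc] at this
    exact mul_right_cancel this
  rcases key _ _ _ _ _ rfl hE with ⟨k1, _⟩ | ⟨p', e, f, k1, k2, k3⟩
  · exfalso
    subst k1
    exact hne (mul_left_cancel (h1.symm.trans h2))
  · have l1 := E.length k2
    simp only [List.length_cons, List.length_nil] at l1
    have l2 : p' = [] := List.eq_nil_of_length_eq_zero (by omega)
    subst l2
    rw [k1, E_single k2, E_single k3]

/-! ### the square system -/

/-- darts: three vertical involutions, two horizontal loops and an extra vertical loop -/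
inductive Lt : Type
  | a | b | c | x | X | y | Y | t | T
  deriving DecidableEq

instance : Fintype Lt where
  elems := {.a, .b, .c, .x, .X, .y, .Y, .t, .T}
  complete := by intro r; cases r <;> simp

namespace Lt

/-- reversal of darts -/
def inv : Lt → Lt
  | a => a
  | b => b
  | c => c
  | x => X
  | X => x
  | y => Y
  | Y => y
  | t => T
  | T => t

/-- the squares -/
def sq : Lt → Lt → Option (Lt × Lt)
  | a, x => some (x, c)
  | a, y => some (y, b)
  | b, x => some (x, b)
  | b, y => some (y, c)
  | c, y => some (x, a)
  | c, x => some (y, a)
  | c, X => some (X, a)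
  | b, Y => some (Y, a)
  | b, X => some (X, b)
  | c, Y => some (Y, b)
  | a, Y => some (X, c)
  | a, X => some (Y, c)
  | t, x => some (x, t)
  | T, x => some (x, T)
  | t, X => some (X, t)
  | T, X => some (X, T)
  | x, a => some (c, x)
  | y, a => some (b, y)
  | x, b => some (b, x)
  | y, b => some (c, y)
  | y, c => some (a, x)
  | x, c => some (a, y)
  | X, c => some (a, X)
  | Y, b => some (a, Y)
  | X, b => some (b, X)
  | Y, c => some (b, Y)
  | Y, a => some (c, X)
  | X, a => some (c, Y)
  | x, t => some (t, x)
  | x, T => some (T, x)
  | X, t => some (t, X)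
  | X, T => some (T, X)
  | _, _ => none

/-- vertical darts -/
def ver : Lt → Bool
  | a => true
  | b => true
  | c => true
  | t => true
  | T => true
  | _ => false

theorem symm_aux : ∀ a b : Lt, (sq a b).elim true (fun r => decide (sq b a = some (r.2, r.1))) = true := by
  decide

theorem rot_aux : ∀ a b : Lt,
    (sq a b).elim true (fun r => decide (sq (inv a) r.1 = some (b, inv r.2))) = true := by
  decide

theorem ver_aux : ∀ a b : Lt, (sq a b).elim true (fun _ => decide (ver a ≠ ver b)) = true := by
  decide

theorem ver_ne {a b : Lt} {r : Lt × Lt} (h : sq a b = some r) : ver a ≠ ver b := by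
  have := ver_aux a b
  rw [h] at this
  simpa using this

end Lt

/-- the square system -/
def SS : SqSys Lt where
  inv := Lt.inv
  inv_inv := by decide
  sq := Lt.sq
  symm := by
    intro a b p q h
    have := Lt.symm_aux a b
    rw [h] at this
    simpa using this
  rot := by
    intro a b p q h
    have := Lt.rot_aux a b
    rw [h] at this
    simpa using this
  irrefl := by decide
  cube := by
    intro a b c b1 a1 c1 b2 c2 a2 h1 h2 h3
    exfalso
    have e1 := Lt.ver_ne h1
    have e2 := Lt.ver_ne h2
    have e3 := Lt.ver_ne h3
    revert e1 e2 e3
    generalize Lt.ver a = u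
    generalize Lt.ver b = v
    generalize Lt.ver c = w
    revert u v w
    decide

/-! ### the automaton -/

open Lt

/-- vertical letters of the automaton -/
inductive Vt : Type
  | a | b | c
  deriving DecidableEq

instance : Fintype Vt where
  elems := {.a, .b, .c}
  complete := by intro r; cases r <;> simp

/-- inclusion of the vertical letters -/
def Vt.i : Vt → Lt
  | .a => .a
  | .b => .b
  | .c => .c

/-- horizontal letters `x` (`false`) and `y` (`true`) -/
def hz : Bool → Lt
  | false => .x
  | true => .y

/-- output of the automaton -/
def tau : Vt → Bool → Bool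
  | .a, h => !h
  | _, h => h

/-- transition of the automaton -/
def del : Vt → Bool → Vt
  | .a, _ => .c
  | .b, false => .b
  | .b, true => .a
  | .c, false => .a
  | .c, true => .b

theorem sq_auto : ∀ (s : Vt) (h : Bool), SS.sq (hz (tau s h)) (del s h).i = some (s.i, hz h) := by
  decide

/-- output of a word -/
def out : List Vt → Bool → Bool
  | [], h => h
  | s :: u, h => out u (tau s h)

/-- section of a word -/
def sec : List Vt → Bool → List Vt
  | [], _ => []
  | s :: u, h => del s h :: sec u (tau s h)

theorem out_append (u w : List Vt) (h : Bool) : out (u ++ w) h = out w (out u h) := by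
  induction u generalizing h with
  | nil => rfl
  | cons s u ih => simp [out, ih]

theorem sec_append (u w : List Vt) (h : Bool) : sec (u ++ w) h = sec u h ++ sec w (out u h) := by
  induction u generalizing h with
  | nil => rfl
  | cons s u ih => simp [out, sec, ih]

/-- parity of the number of letters `a` -/
def pa : List Vt → Bool
  | [] => false
  | .a :: u => !(pa u)
  | _ :: u => pa u

/-- parity of the number of letters different from `a` -/
def pb : List Vt → Bool
  | [] => false
  | .a :: u => pb u
  | _ :: u => !(pb u)

theorem pa_append (u w : List Vt) : pa (u ++ w) = xor (pa u) (pa w) := by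
  induction u with
  | nil => simp [pa]
  | cons s u ih => cases s <;> simp [pa, ih]

theorem pb_append (u w : List Vt) : pb (u ++ w) = xor (pb u) (pb w) := by
  induction u with
  | nil => simp [pb]
  | cons s u ih => cases s <;> simp [pb, ih]

theorem out_eq (u : List Vt) (h : Bool) : out u h = xor h (pa u) := by
  induction u generalizing h with
  | nil => simp [out, pa]
  | cons s u ih => cases s <;> simp [out, pa, tau, ih]

theorem pa_sec (u : List Vt) (h : Bool) : xor (pa (sec u h)) (pa (sec u (!h))) = pb u := by
  induction u generalizing h with
  | nil => simp [sec, pa, pb]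
  | cons s u ih =>
    have := ih h
    have := ih (!h)
    cases s <;> cases h <;> simp_all [sec, pa, pb, tau, del]

theorem pb_sec (u : List Vt) (h : Bool) : xor (pb (sec u h)) (pb (sec u (!h))) = pb u := by
  induction u generalizing h with
  | nil => simp [sec, pb]
  | cons s u ih =>
    have := ih h
    have := ih (!h)
    cases s <;> cases h <;> simp_all [sec, pb, tau, del]

/-- powers of a word -/
def pw (g : List Vt) : ℕ → List Vt
  | 0 => []
  | d + 1 => g ++ pw g d

theorem pw_add (g : List Vt) (d e : ℕ) : pw g (d + e) = pw g d ++ pw g e := by
  induction d with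
  | zero => simp [pw]
  | succ d ih => rw [Nat.succ_add]; simp [pw, ih]

theorem pw_two (g : List Vt) (d : ℕ) : pw g (d + d) = pw (g ++ g) d := by
  induction d with
  | zero => rfl
  | succ d ih =>
    have : d + 1 + (d + 1) = (d + d) + 1 + 1 := by omega
    rw [this]
    simp [pw, ih]

theorem sec_pw (g : List Vt) (h : out g false = false) (d : ℕ) :
    sec (pw g d) false = pw (sec g false) d := by
  induction d with
  | zero => rfl
  | succ d ih => simp [pw, sec_append, h, ih]

theorem out_pw (g : List Vt) (h : out g false = false) (d : ℕ) : out (pw g d) false = false := by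
  induction d with
  | zero => rfl
  | succ d ih => simp [pw, out_append, h, ih]

/-- words moving the ray `x x x ...` -/
inductive Good : List Vt → Prop
  | now {u : List Vt} : out u false = true → Good u
  | later {u : List Vt} : out u false = false → Good (sec u false) → Good u

theorem good_pw : ∀ (d : ℕ) (g : List Vt), 1 ≤ d → pa g = true → pb g = true → Good (pw g d) := by
  intro d
  induction d using Nat.strong_induction_on with
  | _ d IH =>
  intro g hd ha hb
  have hg2 : out (g ++ g) false = false := by
    rw [out_append, out_eq, out_eq]
    simp
  rcases Nat.even_or_odd' d with ⟨e, he | he⟩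
  · -- even
    have he' : d = e + e := by omega
    rw [he', pw_two]
    refine Good.later (out_pw _ hg2 e) ?_
    rw [sec_pw _ hg2]
    have hs : sec (g ++ g) false = sec g false ++ sec g true := by
      rw [sec_append, out_eq, ha]
      rfl
    apply IH e (by omega) _ (by omega)
    · rw [hs, pa_append]
      have := pa_sec g false
      simp only [Bool.not_false] at this
      rw [this, hb]
    · rw [hs, pb_append]
      have := pb_sec g false
      simp only [Bool.not_false] at this
      rw [this, hb]
  · refine Good.now ?_
    have he' : d = (e + e) + 1 := by omega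
    rw [he', pw_add, pw_two, out_append, out_pw _ hg2, out_eq]
    simp [pw, ha]

end Pool.Agent.TH93.Bcc
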