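import Pool.Agent.TH93.BccA

/-!
Elementary facts on right-angled Artin groups, and the obstruction to convex embeddings.
-/

set_option autoImplicit false

namespace Pool.Agent.TH93.Bcc

open Pool.Agent.W387 Pool.Agent.W387.SqSys

section Raag

variable {n : ℕ} (Γ : SimpleGraph (Fin n))

/-- commutators of adjacent generators -/
def RR : Set (FreeGroup (Fin n)) := {r | ∃ i j : Fin n, Γ.Adj i j ∧
  r = FreeGroup.of i * FreeGroup.of j * (FreeGroup.of i)⁻¹ * (FreeGroup.of j)⁻¹}

/-- generators and their inverses -/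
def gu (p : Fin n × Bool) : PresentedGroup (RR Γ) :=
  if p.2 then PresentedGroup.of p.1 else (PresentedGroup.of p.1)⁻¹

/-- signed unit vectors -/
def wv (p : Fin n × Bool) : Fin n → ℤ := if p.2 then Pi.single p.1 1 else - Pi.single p.1 1

/-- abelianisation -/
def abh : PresentedGroup (RR Γ) →* Multiplicative (Fin n → ℤ) :=
  PresentedGroup.toGroup (f := fun i => Multiplicative.ofAdd (Pi.single i (1 : ℤ)))
    (rels := RR Γ) (by
      rintro r ⟨i, j, _, rfl⟩
      simp only [map_mul, map_inv, FreeGroup.lift_apply_of]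
      generalize (Multiplicative.ofAdd (Pi.single i (1 : ℤ)) : Multiplicative (Fin n → ℤ)) = u
      generalize (Multiplicative.ofAdd (Pi.single j (1 : ℤ)) : Multiplicative (Fin n → ℤ)) = v
      rw [mul_comm u v]
      simp)

/-- additive form of the abelianisation -/
def ab (g : PresentedGroup (RR Γ)) : Fin n → ℤ := Multiplicative.toAdd (abh Γ g)

theorem ab_mul (g h : PresentedGroup (RR Γ)) : ab Γ (g * h) = ab Γ g + ab Γ h := by
  unfold ab
  rw [map_mul]
  rfl

theorem ab_gu (p : Fin n × Bool) : ab Γ (gu Γ p) = wv p := by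
  unfold ab gu wv
  split_ifs with h
  · unfold abh
    rw [PresentedGroup.toGroup.of]
    rfl
  · rw [map_inv]
    unfold abh
    rw [PresentedGroup.toGroup.of]
    rfl

theorem gu_not (i : Fin n) (e : Bool) : gu Γ (i, !e) = (gu Γ (i, e))⁻¹ := by
  cases e <;> simp [gu]

/-- pairing with a signed unit vector -/
def ip (v : Fin n → ℤ) (p : Fin n × Bool) : ℤ := if p.2 then v p.1 else - v p.1

theorem ip_add (v w : Fin n → ℤ) (p : Fin n × Bool) : ip (v + w) p = ip v p + ip w p := by
  unfold ip
  split_ifs <;> simp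
  ring

theorem ip_wv (p q : Fin n × Bool) : ip (wv q) p =
    if q.1 = p.1 then (if q.2 = p.2 then 1 else -1) else 0 := by
  obtain ⟨i, e⟩ := p
  obtain ⟨j, d⟩ := q
  by_cases h : j = i
  · subst h
    cases e <;> cases d <;> simp [ip, wv]
  · cases e <;> cases d <;> simp [ip, wv, h, Ne.symm h]

theorem ip_zero (p : Fin n × Bool) : ip (0 : Fin n → ℤ) p = 0 := by
  simp [ip]

theorem ip_self (p : Fin n × Bool) : ip (wv p) p = 1 := by
  rw [ip_wv]
  simp

theorem ip_eq_one {p q : Fin n × Bool} (h : 1 ≤ ip (wv q) p) : q = p := by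
  rw [ip_wv] at h
  by_cases h1 : q.1 = p.1
  · by_cases h2 : q.2 = p.2
    · exact Prod.ext h1 h2
    · simp [h1, h2] at h
  · simp [h1] at h

theorem wv_inj {p q : Fin n × Bool} (h : wv p = wv q) : p = q := by
  apply ip_eq_one
  rw [h, ip_self]

theorem wv_add_zero {p q : Fin n × Bool} (h : ip (wv q) p < 0) : wv p + wv q = 0 := by
  rw [ip_wv] at h
  obtain ⟨i, e⟩ := p
  obtain ⟨j, d⟩ := q
  by_cases h1 : j = i
  · subst h1
    cases e <;> cases d <;> simp [wv] at h ⊢
  · simp [h1] at h

theorem wv_comb {p q r s : Fin n × Bool} (h : wv p + wv q = wv r + wv s) (hpr : p ≠ r)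
    (h0 : wv p + wv q ≠ 0) : p = s ∧ q = r := by
  have h1 : 0 ≤ ip (wv q) p := by
    by_contra hc
    exact h0 (wv_add_zero (by omega))
  have h2 : ip (wv r) p ≤ 0 := by
    by_contra hc
    exact hpr (ip_eq_one (by omega)).symm
  have h3 := congrArg (fun v => ip v p) h
  simp only [ip_add, ip_self] at h3
  have h4 : s = p := ip_eq_one (by omega)
  refine ⟨h4.symm, ?_⟩
  apply wv_inj
  rw [h4, add_comm (wv r)] at h
  exact add_left_cancel h

theorem wv_ne_zero (p : Fin n × Bool) : wv p ≠ 0 := by
  intro h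
  have := ip_self p
  rw [h, ip_zero] at this
  omega

/-- commuting generators are adjacent -/
theorem adj_of_commute {i j : Fin n} (hij : i ≠ j)
    (h : (PresentedGroup.of i : PresentedGroup (RR Γ)) * PresentedGroup.of j =
      PresentedGroup.of j * PresentedGroup.of i) : Γ.Adj i j := by
  by_contra hn
  let F : Fin n → Equiv.Perm (Fin 3) :=
    fun k => if k = i then Equiv.swap 0 1 else if k = j then Equiv.swap 1 2 else 1
  have hF : ∀ k l, Γ.Adj k l → F k * F l = F l * F k := by
    intro k l hkl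
    have hne := hkl.ne
    by_cases k1 : k = i
    · subst k1
      have l1 : l ≠ j := fun e => hn (e ▸ hkl)
      have : F l = 1 := by simp [F, hne.symm, l1]
      simp [this]
    · by_cases k2 : k = j
      · subst k2
        have l1 : l ≠ i := fun e => hn (e ▸ hkl.symm)
        have : F l = 1 := by simp [F, hne.symm, l1]
        simp [this]
      · have : F k = 1 := by simp [F, k1, k2]
        simp [this]
  let φ : PresentedGroup (RR Γ) →* Equiv.Perm (Fin 3) :=
    PresentedGroup.toGroup (f := F) (rels := RR Γ) (by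
      rintro r ⟨k, l, hkl, rfl⟩
      simp only [map_mul, map_inv, FreeGroup.lift_apply_of]
      rw [hF k l hkl]
      simp)
  have h2 := congrArg φ h
  rw [map_mul, map_mul] at h2
  have hi : φ (PresentedGroup.of i) = F i := PresentedGroup.toGroup.of _
  have hj : φ (PresentedGroup.of j) = F j := PresentedGroup.toGroup.of _
  rw [hi, hj] at h2
  have e1 : F i = Equiv.swap 0 1 := by simp [F]
  have e2 : F j = Equiv.swap 1 2 := by simp [F, hij.symm]
  rw [e1, e2] at h2
  revert h2
  decide

theorem commute_of_adj {i j : Fin n} (h : Γ.Adj i j) :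
    (PresentedGroup.of i : PresentedGroup (RR Γ)) * PresentedGroup.of j =
      PresentedGroup.of j * PresentedGroup.of i := by
  have h1 : PresentedGroup.mk (RR Γ) (FreeGroup.of i * FreeGroup.of j * (FreeGroup.of i)⁻¹ *
      (FreeGroup.of j)⁻¹) = 1 := PresentedGroup.one_of_mem ⟨i, j, h, rfl⟩
  rw [map_mul, map_mul, map_mul, map_inv, map_inv] at h1
  have h2 : (PresentedGroup.of i : PresentedGroup (RR Γ)) * PresentedGroup.of j *
      (PresentedGroup.of i)⁻¹ * (PresentedGroup.of j)⁻¹ = 1 := h1
  rw [mul_inv_eq_one, mul_inv_eq_iff_eq_mul] at h2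
  exact h2

theorem gu_commute {i j : Fin n} (h : Γ.Adj i j) (e d : Bool) :
    Commute (gu Γ (i, e)) (gu Γ (j, d)) := by
  have h1 : Commute (PresentedGroup.of i : PresentedGroup (RR Γ)) (PresentedGroup.of j) :=
    commute_of_adj Γ h
  cases e <;> cases d <;> simp [gu, h1]

theorem of_commute_of_gu {p q : Fin n × Bool} (h : Commute (gu Γ p) (gu Γ q)) :
    Commute (PresentedGroup.of p.1 : PresentedGroup (RR Γ)) (PresentedGroup.of q.1) := by
  obtain ⟨i, e⟩ := p
  obtain ⟨j, d⟩ := q
  cases e <;> cases d <;> simpa [gu] using h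

/-- squares in the Cayley graph of a right-angled Artin group -/
theorem raag_square {g0 g1 g2 g3 : PresentedGroup (RR Γ)} {p q r s : Fin n × Bool}
    (h1 : g1 = g0 * gu Γ p) (h2 : g2 = g1 * gu Γ q) (h3 : g3 = g0 * gu Γ r)
    (h4 : g2 = g3 * gu Γ s) (h13 : g1 ≠ g3) (h02 : g0 ≠ g2) :
    p = s ∧ q = r ∧ Γ.Adj p.1 q.1 := by
  have hpr : p ≠ r := by
    rintro rfl
    exact h13 (h1.trans h3.symm)
  have e : gu Γ p * gu Γ q = gu Γ r * gu Γ s := by
    have h5 : g0 * gu Γ p * gu Γ q = g0 * gu Γ r * gu Γ s := by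
      rw [← h1, ← h2, ← h3, ← h4]
    rw [mul_assoc, mul_assoc] at h5
    exact mul_left_cancel h5
  have e2 : wv p + wv q = wv r + wv s := by
    have := congrArg (ab Γ) e
    simpa only [ab_mul, ab_gu] using this
  have h0 : wv p + wv q ≠ 0 := by
    intro h
    -- then `q` is the inverse of `p`
    have h5 : ip (wv q) p = -1 := by
      have := congrArg (fun v => ip v p) h
      simp only [ip_add, ip_self, ip_zero] at this
      omega
    apply h02
    rw [h2, h1]
    obtain ⟨i, ei⟩ := p
    obtain ⟨j, ej⟩ := q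
    rw [ip_wv] at h5
    by_cases hji : j = i
    · subst hji
      by_cases hde : ej = ei
      · simp [hde] at h5
      · have : ej = !ei := by revert hde; cases ej <;> cases ei <;> simp
        rw [this, gu_not]
        simp
    · simp [hji] at h5
  obtain ⟨k1, k2⟩ := wv_comb e2 hpr h0
  subst k1
  subst k2
  refine ⟨rfl, rfl, ?_⟩
  have hc : Commute (gu Γ p) (gu Γ q) := e
  have hne : p.1 ≠ q.1 := by
    intro hi
    by_cases hs : p.2 = q.2
    · exact hpr (Prod.ext hi hs)
    · apply h0
      apply wv_add_zero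
      rw [ip_wv]
      simp [hi.symm, Ne.symm hs]
  exact adj_of_commute Γ hne (of_commute_of_gu Γ hc)

end Raag

end Pool.Agent.TH93.Bcc
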